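import Pool.Agent.Helper91.ZM.ConstrB

/-!
Project ZM, module ZM-8: the construction.
-/

set_option autoImplicit false
set_option maxHeartbeats 4000000

open MeasureTheory Filter Topology
open scoped ContDiff Real ENNReal

namespace Pool.Agent.Helper91.ZM

open Pool.Agent.Helper78.ZM

variable {m : ℕ}

/-- data of a stage -/
structure St (m : ℕ) where
  F : Cn (m + 2) → ℂ
  τ : ℝ
  r : ℝ
  d : ℝ

/-- the first stage -/
theorem base (N : ℕ) (hN : 1 ≤ N) : Inv (m := m) N (fun x => x 0 ^ N)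
    ((1 / (4 * ((m : ℝ) + 2))) ^ (2 * N) / 2) (1 / 4) 0 := by
  have hm : (0 : ℝ) ≤ m := Nat.cast_nonneg m
  have hSS : ∀ x : Cn (m + 2), SS (fun x => x 0 ^ N) N x = ∑ j, (‖x j‖ ^ 2) ^ N := by
    intro x
    unfold SS
    refine Finset.sum_congr rfl fun j _ => ?_
    by_cases hj : j = 0
    · subst hj
      rw [Phi_zero, norm_pow, ← pow_mul, ← pow_mul, mul_comm]
    · rw [Phi_ne _ _ _ hj, norm_pow, ← pow_mul, ← pow_mul, mul_comm]
  refine ⟨(contDiff_apply ℂ ℂ (0 : Fin (m + 2))).pow N, fun x _ => rfl, by positivity,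
    by norm_num, le_refl _, ?_, le_refl _, ?_⟩
  · intro x h1 _
    rw [hSS]
    obtain ⟨j, _, hj⟩ : ∃ j ∈ Finset.univ, (1 / (4 * ((m : ℝ) + 2))) ^ 2 ≤ ‖x j‖ ^ 2 := by
      apply Finset.exists_le_of_sum_le (f := fun _ : Fin (m + 2) => (1 / (4 * ((m : ℝ) + 2))) ^ 2)
        Finset.univ_nonempty
      rw [← nrm_sq, Finset.sum_const, Finset.card_univ, Fintype.card_fin, nsmul_eq_mul]
      have h2 : (((m + 2 : ℕ) : ℝ)) * (1 / (4 * ((m : ℝ) + 2))) ^ 2 ≤ (1 / 4) ^ 2 := by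
        push_cast
        have h3 : ((m : ℝ) + 2) * (1 / (4 * ((m : ℝ) + 2))) ^ 2 = (1 / 4) ^ 2 / ((m : ℝ) + 2) := by
          field_simp
        rw [h3]
        apply div_le_self (by positivity)
        linarith
      refine h2.trans ?_
      gcongr
    have h4 : ((1 / (4 * ((m : ℝ) + 2))) ^ 2) ^ N ≤ (‖x j‖ ^ 2) ^ N := by gcongr
    have h5 : (‖x j‖ ^ 2) ^ N ≤ ∑ j, (‖x j‖ ^ 2) ^ N :=
      Finset.single_le_sum (f := fun j => (‖x j‖ ^ 2) ^ N) (fun _ _ => by positivity)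
        (Finset.mem_univ j)
    rw [← pow_mul] at h4
    have h6 : 0 ≤ (1 / (4 * ((m : ℝ) + 2))) ^ (2 * N) := by positivity
    linarith
  · intro t _
    refine ⟨0, ?_, by simp⟩
    have : (0 : Fin (m + 2)) ≠ 1 := (one_ne_zero' (m := m)).symm
    simp [this]
    omega

theorem z8 (h5 : Z5Stmt) (h6 : Z6Stmt) : Z8Stmt := by
  intro m
  have hm : (0 : ℝ) ≤ m := Nat.cast_nonneg m
  refine ⟨4 * ((m : ℝ) + 2) + 4 + Real.log (4 * ((m : ℝ) + 2)), fun N0 hN0 => ?_⟩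
  have hN1 : (1 : ℝ) ≤ N0 := by exact_mod_cast hN0
  -- the stages
  have hstep : ∀ (k : ℕ) (s : {s : St m // Inv (N0 * 2 ^ k) s.F s.τ s.r s.d}),
      ∃ s' : {s : St m // Inv (N0 * 2 ^ (k + 1)) s.F s.τ s.r s.d},
        Rel (N0 * 2 ^ k) k s.1.F s.1.τ s.1.r s.1.d s'.1.F s'.1.τ s'.1.r s'.1.d := by
    rintro k ⟨s, hs⟩
    have hN : 1 ≤ N0 * 2 ^ k := Nat.one_le_iff_ne_zero.2 (by positivity)
    obtain ⟨F', τ', r', d', h1, h2⟩ := step h5 h6 hN k hs
    have e : N0 * 2 ^ (k + 1) = 2 * (N0 * 2 ^ k) := by ring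
    exact ⟨⟨⟨F', τ', r', d'⟩, by rw [e]; exact h1⟩, h2⟩
  choose nxt hnxt using hstep
  let sq : (k : ℕ) → {s : St m // Inv (N0 * 2 ^ k) s.F s.τ s.r s.d} := fun k =>
    Nat.rec (motive := fun k => {s : St m // Inv (N0 * 2 ^ k) s.F s.τ s.r s.d})
      ⟨⟨fun x => x 0 ^ (N0 * 2 ^ 0), (1 / (4 * ((m : ℝ) + 2))) ^ (2 * (N0 * 2 ^ 0)) / 2, 1 / 4, 0⟩,
        base _ (by simpa using hN0)⟩ (fun k s => nxt k s) k
  have hsq : ∀ k, sq (k + 1) = nxt k (sq k) := fun k => rfl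
  have hrel : ∀ k, Rel (N0 * 2 ^ k) k (sq k).1.F (sq k).1.τ (sq k).1.r (sq k).1.d
      (sq (k + 1)).1.F (sq (k + 1)).1.τ (sq (k + 1)).1.r (sq (k + 1)).1.d := by
    intro k
    rw [hsq]
    exact hnxt k (sq k)
  have hinv : ∀ k, Inv (N0 * 2 ^ k) (sq k).1.F (sq k).1.τ (sq k).1.r (sq k).1.d := fun k =>
    (sq k).2
  set F : ℕ → Cn (m + 2) → ℂ := fun k => (sq k).1.F with hFdef
  set τ : ℕ → ℝ := fun k => (sq k).1.τ with hτdef
  set r : ℕ → ℝ := fun k => (sq k).1.r with hrdef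
  have hhk : ∀ k, hh N0 F τ k = hf (F k) (N0 * 2 ^ k) (τ k) := hh_eq N0 F τ
  have e2 : ∀ k, N0 * 2 ^ (k + 1) = 2 * (N0 * 2 ^ k) := fun k => by ring
  have hcast : ∀ k, ((N0 * 2 ^ k : ℕ) : ℝ) = (N0 : ℝ) * 2 ^ k := fun k => by push_cast; ring
  have hF0 : F 0 = fun x => x 0 ^ N0 := by
    change (fun x : Cn (m + 2) => x 0 ^ (N0 * 2 ^ 0)) = _
    simp
  have hτ0 : τ 0 = (1 / (4 * ((m : ℝ) + 2))) ^ (2 * N0) / 2 := by
    change (1 / (4 * ((m : ℝ) + 2))) ^ (2 * (N0 * 2 ^ 0)) / 2 = _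
    simp
  have hr0 : r 0 = 1 / 4 := rfl
  have hanti : ∀ k x, nrm x ≤ 1 → hh N0 F τ (k + 1) x ≤ hh N0 F τ k x := by
    intro k x hx
    rw [hhk, hhk, e2]
    exact (hrel k).anti x hx
  have hclose : ∀ k x, r k ≤ nrm x → nrm x ≤ 1 →
      hh N0 F τ k x - (m + 3) / ((N0 : ℝ) * 2 ^ k) ≤ hh N0 F τ (k + 1) x := by
    intro k x h1 h2
    rw [hhk, hhk, e2]
    have := (hrel k).close x h1 h2
    rwa [hcast] at this
  have hrle : ∀ k, r k ≤ 1 / 4 := fun k => (hinv k).r_le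
  -- bounds
  have hup0 : ∀ x, nrm x ≤ 1 → hh N0 F τ 0 x ≤ 2 * ((m : ℝ) + 2) := by
    intro x hx
    rw [hhk, hf_eq]
    simp only [pow_zero, mul_one]
    have h1 : SS (F 0) N0 x ≤ (m : ℝ) + 2 := by
      unfold SS
      have h2 : ∀ j ∈ Finset.univ, ‖Phi (F 0) N0 x j‖ ^ 2 ≤ 1 := by
        intro j _
        have h3 : ‖Phi (F 0) N0 x j‖ ≤ 1 := by
          by_cases hj : j = 0
          · subst hj
            rw [Phi_zero, hF0, norm_pow]
            exact pow_le_one₀ (norm_nonneg _) ((coord_le x 0).trans hx)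
          · rw [Phi_ne _ _ _ hj, norm_pow]
            exact pow_le_one₀ (norm_nonneg _) ((coord_le x j).trans hx)
        exact pow_le_one₀ (norm_nonneg _) h3
      refine (Finset.sum_le_sum h2).trans ?_
      simp
    have h2 : τ 0 ≤ 1 := by
      rw [hτ0]
      have : (1 / (4 * ((m : ℝ) + 2))) ^ (2 * N0) ≤ 1 := by
        apply pow_le_one₀ (by positivity)
        rw [div_le_one (by positivity)]
        linarith
      linarith
    have h3 : 0 < SS (F 0) N0 x + τ 0 := by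
      have := SS_nonneg (F 0) N0 x
      have := (hinv 0).tau_pos
      change 0 < τ 0 at this
      linarith
    have h4 : Real.log (SS (F 0) N0 x + τ 0) ≤ (m : ℝ) + 2 :=
      (Real.log_le_sub_one_of_pos h3).trans (by linarith)
    have h5 : 1 / (2 * (N0 : ℝ)) * Real.log (SS (F 0) N0 x + τ 0) ≤
        1 / (2 * (N0 : ℝ)) * ((m : ℝ) + 2) := by gcongr
    have h6 : 1 / (2 * (N0 : ℝ)) * ((m : ℝ) + 2) ≤ (m : ℝ) + 2 := by
      have : 1 / (2 * (N0 : ℝ)) ≤ 1 := by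
        rw [div_le_one (by positivity)]
        linarith
      nlinarith
    have h7 : ((m : ℝ) + 2) / (N0 : ℝ) ≤ (m : ℝ) + 2 := div_le_self (by positivity) hN1
    linarith
  have hanti0 : ∀ k x, nrm x ≤ 1 → hh N0 F τ k x ≤ hh N0 F τ 0 x := by
    intro k x hx
    induction k with
    | zero => exact le_refl _
    | succ k ih => exact (hanti k x hx).trans ih
  have hlow0 : ∀ x, 1 / 4 ≤ nrm x → nrm x ≤ 1 →
      -Real.log (4 * ((m : ℝ) + 2)) ≤ hh N0 F τ 0 x := by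
    intro x h1 h2
    have h3 : (1 / (4 * ((m : ℝ) + 2))) ^ (2 * N0) ≤ SS (F 0) N0 x + τ 0 := by
      have h4 := (hinv 0).tau_le x h1 h2
      change τ 0 ≤ SS (F 0) (N0 * 2 ^ 0) x at h4
      simp only [pow_zero, mul_one] at h4
      rw [hτ0] at h4 ⊢
      linarith
    rw [hhk, hf_eq]
    simp only [pow_zero, mul_one]
    have h5 := Real.log_le_log (by positivity) h3
    rw [Real.log_pow, one_div, Real.log_inv] at h5
    have h6 : 1 / (2 * (N0 : ℝ)) * (((2 * N0 : ℕ) : ℝ) * -Real.log (4 * ((m : ℝ) + 2))) ≤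
        1 / (2 * (N0 : ℝ)) * Real.log (SS (F 0) N0 x + τ 0) := by gcongr
    have h7 : 1 / (2 * (N0 : ℝ)) * (((2 * N0 : ℕ) : ℝ) * -Real.log (4 * ((m : ℝ) + 2))) =
        -Real.log (4 * ((m : ℝ) + 2)) := by
      push_cast
      field_simp
    rw [h7] at h6
    have h8 : 0 ≤ ((m : ℝ) + 2) / (N0 : ℝ) := by positivity
    linarith
  have hlow : ∀ k x, 1 / 4 ≤ nrm x → nrm x ≤ 1 →
      hh N0 F τ 0 x - 2 * ((m : ℝ) + 3) * (1 - (1 / 2) ^ k) ≤ hh N0 F τ k x := by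
    intro k x h1 h2
    induction k with
    | zero => simp
    | succ k ih =>
      have h3 := hclose k x ((hrle k).trans h1) h2
      have h4 : ((m : ℝ) + 3) / ((N0 : ℝ) * 2 ^ k) ≤ ((m : ℝ) + 3) * (1 / 2) ^ k := by
        rw [div_le_iff₀ (by positivity)]
        have h5 : ((m : ℝ) + 3) * (1 / 2) ^ k * ((N0 : ℝ) * 2 ^ k) = ((m : ℝ) + 3) * N0 := by
          rw [one_div, inv_pow]
          field_simp
        rw [h5]
        nlinarith
      have h6 : 2 * ((m : ℝ) + 3) * (1 - (1 / 2) ^ (k + 1)) =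
          2 * ((m : ℝ) + 3) * (1 - (1 / 2) ^ k) + ((m : ℝ) + 3) * (1 / 2) ^ k := by
        rw [pow_succ]
        ring
      rw [h6]
      linarith
  have hlogn : 0 ≤ Real.log (4 * ((m : ℝ) + 2)) := Real.log_nonneg (by linarith)
  refine ⟨F, τ, r, ?_⟩
  refine
    { smooth := fun k => (hinv k).smooth
      zero := hF0
      tau_pos := fun k => (hinv k).tau_pos
      tau_zero := ?_
      r_zero := hr0
      r_pos := fun k => (hinv k).r_pos
      r_half := fun k => (hrel k).r_half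
      anti := hanti
      close := hclose
      bound := ?_
      small := ?_
      lel := ?_
      minf := ?_ }
  · rw [hτ0]
    linarith
  · intro k x h1 h2
    rw [abs_le]
    have h3 := hlow k x h1 h2
    have h4 := hlow0 x h1 h2
    have h5 := hup0 x h2
    have h6 := hanti0 k x h2
    have h7 : 2 * ((m : ℝ) + 3) * (1 - (1 / 2) ^ k) ≤ 2 * ((m : ℝ) + 3) := by
      have : (0 : ℝ) ≤ (1 / 2) ^ k := by positivity
      nlinarith
    constructor <;> linarith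
  · intro k x h1 h2
    rw [hhk, e2]
    exact (hrel k).small x h1 h2
  · intro k hk
    rw [hhk, e2]
    have hd : 0 < (sq k).1.d := by
      obtain ⟨j, rfl⟩ : ∃ j, k = j + 1 := ⟨k - 1, by omega⟩
      exact (hrel j).d_pos
    have := (hrel k).lel hd
    rwa [hcast] at this
  · intro k
    cases k with
    | zero =>
      rw [hhk, hf_eq, hF0]
      simp only [pow_zero, mul_one]
      rw [SS_zero hN0 (fun x _ => rfl), zero_add, hτ0]
      have h1 : Real.log ((1 / (4 * ((m : ℝ) + 2))) ^ (2 * N0) / 2) ≤ 0 := by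
        apply Real.log_nonpos (by positivity)
        have : (1 / (4 * ((m : ℝ) + 2))) ^ (2 * N0) ≤ 1 := by
          apply pow_le_one₀ (by positivity)
          rw [div_le_one (by positivity)]
          linarith
        linarith
      have h2 : 1 / (2 * (N0 : ℝ)) * Real.log ((1 / (4 * ((m : ℝ) + 2))) ^ (2 * N0) / 2) ≤ 0 :=
        mul_nonpos_of_nonneg_of_nonpos (by positivity) h1
      have h7 : ((m : ℝ) + 2) / (N0 : ℝ) ≤ (m : ℝ) + 2 := div_le_self (by positivity) hN1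
      push_cast
      linarith
    | succ k =>
      rw [hhk, e2]
      have := (hrel k).minf
      push_cast
      exact this

end Pool.Agent.Helper91.ZM
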