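import Pool.Agent.Helper78.ZM.Stmts

/-!
Project ZM, module ZM-8, part A: elementary facts on the norm and the sums `S`.
-/

set_option autoImplicit false
set_option maxHeartbeats 4000000

open MeasureTheory Filter Topology
open scoped ContDiff Real ENNReal

namespace Pool.Agent.Helper91.ZM

open Pool.Agent.Helper78.ZM

variable {m : ℕ}

/-- the sum of squares -/
noncomputable def SS (F : Cn (m + 2) → ℂ) (N : ℕ) (x : Cn (m + 2)) : ℝ :=
  ∑ j, ‖Phi F N x j‖ ^ 2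

/-- the functions of the construction -/
noncomputable def hf (F : Cn (m + 2) → ℂ) (N : ℕ) (τ : ℝ) : Cn (m + 2) → ℝ :=
  lg (Phi F N) τ (1 / (2 * (N : ℝ))) ((m + 2) / (N : ℝ))

theorem hf_eq (F : Cn (m + 2) → ℂ) (N : ℕ) (τ : ℝ) (x : Cn (m + 2)) :
    hf F N τ x = 1 / (2 * (N : ℝ)) * Real.log (SS F N x + τ) + (m + 2) / (N : ℝ) := rfl

theorem hh_eq (N0 : ℕ) (F : ℕ → Cn (m + 2) → ℂ) (τ : ℕ → ℝ) (k : ℕ) :
    hh N0 F τ k = hf (F k) (N0 * 2 ^ k) (τ k) := by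
  unfold hh hf
  push_cast
  rfl

theorem nrm_sq {n : ℕ} (x : Cn n) : nrm x ^ 2 = ∑ j, ‖x j‖ ^ 2 :=
  Real.sq_sqrt (Finset.sum_nonneg fun _ _ => by positivity)

theorem nrm_nonneg {n : ℕ} (x : Cn n) : 0 ≤ nrm x := Real.sqrt_nonneg _

theorem coord_le {n : ℕ} (x : Cn n) (j : Fin n) : ‖x j‖ ≤ nrm x := by
  apply Real.le_sqrt_of_sq_le
  exact Finset.single_le_sum (f := fun j => ‖x j‖ ^ 2) (fun _ _ => by positivity)
    (Finset.mem_univ j)

theorem norm_le_nrm {n : ℕ} (x : Cn n) : ‖x‖ ≤ nrm x :=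
  (pi_norm_le_iff_of_nonneg (nrm_nonneg x)).2 (coord_le x)

theorem continuous_nrm {n : ℕ} : Continuous (nrm : Cn n → ℝ) := by
  unfold nrm
  fun_prop

theorem nrm_eq_zero {n : ℕ} {x : Cn n} : nrm x = 0 ↔ x = 0 := by
  constructor
  · intro h
    have := norm_le_nrm x
    rw [h] at this
    exact norm_le_zero_iff.1 this
  · rintro rfl
    simp [nrm]

theorem isCompact_shell {n : ℕ} (r R : ℝ) : IsCompact {x : Cn n | r ≤ nrm x ∧ nrm x ≤ R} := by
  apply Metric.isCompact_of_isClosed_isBounded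
  · exact (isClosed_le continuous_const continuous_nrm).inter
      (isClosed_le continuous_nrm continuous_const)
  · refine (Metric.isBounded_closedBall (x := (0 : Cn n)) (r := R)).subset ?_
    intro x hx
    rw [mem_closedBall_zero_iff]
    exact (norm_le_nrm x).trans hx.2

theorem Phi_zero (F : Cn (m + 2) → ℂ) (N : ℕ) (x : Cn (m + 2)) : Phi F N x 0 = F x := by
  simp [Phi]

theorem Phi_ne (F : Cn (m + 2) → ℂ) (N : ℕ) (x : Cn (m + 2)) {j : Fin (m + 2)} (hj : j ≠ 0) :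
    Phi F N x j = x j ^ N := by
  simp [Phi, hj]

theorem Phi_smooth {F : Cn (m + 2) → ℂ} (hF : ContDiff ℂ ∞ F) (N : ℕ) (j : Fin (m + 2)) :
    ContDiff ℂ ∞ (fun x => Phi F N x j) := by
  by_cases hj : j = 0
  · subst hj
    simp only [Phi_zero]
    exact hF
  · simp only [Phi_ne F N _ hj]
    exact (contDiff_apply ℂ ℂ j).pow N

theorem SS_nonneg (F : Cn (m + 2) → ℂ) (N : ℕ) (x : Cn (m + 2)) : 0 ≤ SS F N x :=
  Finset.sum_nonneg fun _ _ => by positivity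

theorem continuous_SS {F : Cn (m + 2) → ℂ} (hF : ContDiff ℂ ∞ F) (N : ℕ) :
    Continuous (SS F N) := by
  unfold SS
  refine continuous_finsetSum _ fun j _ => ?_
  have := (Phi_smooth hF N j).continuous
  fun_prop

theorem one_ne_zero' : (1 : Fin (m + 2)) ≠ 0 := by
  intro h
  have := congrArg Fin.val h
  simp at this

theorem SS_zero {F : Cn (m + 2) → ℂ} {N : ℕ} (hN : 1 ≤ N)
    (hp : ∀ x : Cn (m + 2), x 1 = 0 → F x = x 0 ^ N) : SS F N 0 = 0 := by
  unfold SS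
  refine Finset.sum_eq_zero fun j _ => ?_
  by_cases hj : j = 0
  · subst hj
    rw [Phi_zero, hp 0 rfl]
    simp
    omega
  · rw [Phi_ne F N _ hj]
    simp
    omega

theorem SS_pos {F : Cn (m + 2) → ℂ} {N : ℕ} (hN : 1 ≤ N)
    (hp : ∀ x : Cn (m + 2), x 1 = 0 → F x = x 0 ^ N) {x : Cn (m + 2)} (hx : 0 < nrm x) :
    0 < SS F N x := by
  refine lt_of_le_of_ne (SS_nonneg F N x) fun h => ?_
  have h0 : ∀ j, Phi F N x j = 0 := by
    intro j
    have := (Finset.sum_eq_zero_iff_of_nonneg (fun j _ => by positivity)).1 h.symm j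
      (Finset.mem_univ j)
    simpa using this
  have hN0 : N ≠ 0 := by omega
  have h1 : ∀ j, j ≠ 0 → x j = 0 := by
    intro j hj
    have := h0 j
    rw [Phi_ne F N _ hj] at this
    exact pow_eq_zero_iff hN0 |>.1 this
  have h2 : x 0 = 0 := by
    have := h0 0
    rw [Phi_zero, hp x (h1 1 one_ne_zero')] at this
    exact pow_eq_zero_iff hN0 |>.1 this
  have h3 : x = 0 := by
    funext j
    by_cases hj : j = 0
    · rw [hj, h2]
      rfl
    · exact h1 j hj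
  rw [h3, nrm_eq_zero.2 rfl] at hx
  exact lt_irrefl _ hx

/-- the comparison of the sums of two consecutive stages -/
theorem SS_step {F : Cn (m + 2) → ℂ} {N : ℕ} {d s B : ℝ} (hs : 0 < s) (hd : 0 < d) (hd1 : d ≤ 1)
    (hdB : d * (2 * B ^ 2 + 1) ≤ s ^ 2 / (2 * ((m : ℝ) + 2))) {x : Cn (m + 2)}
    (hx : nrm x ≤ 1) (hsx : s ≤ SS F N x) (hB : ‖F x‖ ≤ B) :
    SS F N x ^ 2 / (2 * ((m : ℝ) + 2)) ≤ SS (fun y => F y ^ 2 + d * y 1) (2 * N) x ∧
    SS (fun y => F y ^ 2 + d * y 1) (2 * N) x ≤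
      SS F N x ^ 2 + SS F N x ^ 2 / (2 * ((m : ℝ) + 2)) := by
  set S := SS F N x with hS
  set n : ℝ := (m : ℝ) + 2 with hn
  have hn0 : 0 < n := by positivity
  set Q : ℝ := ∑ j, (‖Phi F N x j‖ ^ 2) ^ 2 with hQ
  have hQ1 : S ^ 2 ≤ n * Q := by
    have := sq_sum_le_card_mul_sum_sq (s := Finset.univ) (f := fun j => ‖Phi F N x j‖ ^ 2)
    simp only [Finset.card_univ, Fintype.card_fin] at this
    push_cast at this
    exact this
  have hQ2 : Q ≤ S ^ 2 := by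
    have h1 : ∀ j ∈ Finset.univ, (‖Phi F N x j‖ ^ 2) ^ 2 ≤ S * ‖Phi F N x j‖ ^ 2 := by
      intro j hj
      have h2 : ‖Phi F N x j‖ ^ 2 ≤ S :=
        Finset.single_le_sum (f := fun j => ‖Phi F N x j‖ ^ 2) (fun _ _ => by positivity) hj
      rw [sq (‖Phi F N x j‖ ^ 2)]
      exact mul_le_mul_of_nonneg_right h2 (by positivity)
    calc Q ≤ ∑ j, S * ‖Phi F N x j‖ ^ 2 := Finset.sum_le_sum h1
      _ = S ^ 2 := by rw [← Finset.mul_sum, sq]; rfl
  -- the difference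
  have hdiff : |SS (fun y => F y ^ 2 + d * y 1) (2 * N) x - Q| ≤ s ^ 2 / (2 * n) := by
    have e1 : SS (fun y => F y ^ 2 + d * y 1) (2 * N) x - Q =
        ‖F x ^ 2 + d * x 1‖ ^ 2 - ‖F x‖ ^ 4 := by
      have h1 : SS (fun y => F y ^ 2 + d * y 1) (2 * N) x = ‖F x ^ 2 + d * x 1‖ ^ 2 +
          ∑ j ∈ Finset.univ.erase (0 : Fin (m + 2)), (‖x j‖ ^ (2 * N)) ^ 2 := by
        unfold SS
        rw [← Finset.add_sum_erase _ _ (Finset.mem_univ (0 : Fin (m + 2)))]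
        rw [Phi_zero]
        congr 1
        refine Finset.sum_congr rfl fun j hj => ?_
        rw [Phi_ne _ _ _ (Finset.ne_of_mem_erase hj), norm_pow]
      have h2 : Q = ‖F x‖ ^ 4 +
          ∑ j ∈ Finset.univ.erase (0 : Fin (m + 2)), (‖x j‖ ^ (2 * N)) ^ 2 := by
        rw [hQ]
        rw [← Finset.add_sum_erase _ _ (Finset.mem_univ (0 : Fin (m + 2)))]
        rw [Phi_zero]
        congr 1
        · ring
        · refine Finset.sum_congr rfl fun j hj => ?_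
          rw [Phi_ne _ _ _ (Finset.ne_of_mem_erase hj), norm_pow]
          ring
      rw [h1, h2]
      ring
    rw [e1]
    have hx1 : ‖x 1‖ ≤ 1 := (coord_le x 1).trans hx
    have hb : ‖(d : ℂ) * x 1‖ ≤ d := by
      rw [norm_mul, Complex.norm_real, Real.norm_of_nonneg hd.le]
      nlinarith [norm_nonneg (x 1)]
    have hF0 := norm_nonneg (F x)
    have hb0 := norm_nonneg ((d : ℂ) * x 1)
    have hu : ‖F x ^ 2 + d * x 1‖ ≤ ‖F x‖ ^ 2 + d := by
      calc ‖F x ^ 2 + d * x 1‖ ≤ ‖F x ^ 2‖ + ‖(d : ℂ) * x 1‖ := norm_add_le _ _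
        _ ≤ ‖F x‖ ^ 2 + d := by rw [norm_pow]; linarith
    have hl : ‖F x‖ ^ 2 - d ≤ ‖F x ^ 2 + d * x 1‖ := by
      have h3 : ‖F x ^ 2‖ ≤ ‖F x ^ 2 + d * x 1‖ + ‖(d : ℂ) * x 1‖ := by
        calc ‖F x ^ 2‖ = ‖(F x ^ 2 + d * x 1) - d * x 1‖ := by ring_nf
          _ ≤ _ := norm_sub_le _ _
      rw [norm_pow] at h3
      linarith
    set A := ‖F x ^ 2 + d * x 1‖ with hA
    have hA0 : 0 ≤ A := norm_nonneg _
    set f := ‖F x‖ with hf
    have hf2 : f ^ 2 ≤ B ^ 2 := by nlinarith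
    have key : |A ^ 2 - f ^ 4| ≤ d * (2 * B ^ 2 + 1) := by
      have e : A ^ 2 - f ^ 4 = (A - f ^ 2) * (A + f ^ 2) := by ring
      rw [e, abs_mul]
      have h4 : |A - f ^ 2| ≤ d := by
        rw [abs_le]
        constructor <;> linarith
      have h5 : |A + f ^ 2| ≤ 2 * B ^ 2 + 1 := by
        rw [abs_of_nonneg (by positivity)]
        linarith
      exact mul_le_mul h4 h5 (abs_nonneg _) hd.le
    exact key.trans hdB
  have hsS : s ^ 2 ≤ S ^ 2 := by nlinarith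
  have h6 : s ^ 2 / (2 * n) ≤ S ^ 2 / (2 * n) := by gcongr
  rw [abs_le] at hdiff
  constructor
  · have h7 : S ^ 2 / n ≤ Q := by
      rw [div_le_iff₀ hn0]
      linarith
    have h8 : S ^ 2 / n = S ^ 2 / (2 * n) + S ^ 2 / (2 * n) := by
      field_simp
      ring
    linarith [hdiff.1]
  · linarith [hdiff.2]

end Pool.Agent.Helper91.ZM
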