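import Pool.Agent.Helper91.ZM.ConstrA

/-!
Project ZM, module ZM-8, part B: one step of the construction.
-/

set_option autoImplicit false
set_option maxHeartbeats 4000000

open MeasureTheory Filter Topology
open scoped ContDiff Real ENNReal

namespace Pool.Agent.Helper91.ZM

open Pool.Agent.Helper78.ZM

variable {m : ℕ}

/-- the invariants of a stage -/
structure Inv (N : ℕ) (F : Cn (m + 2) → ℂ) (τ r d : ℝ) : Prop where
  smooth : ContDiff ℂ ∞ F
  plane : ∀ x : Cn (m + 2), x 1 = 0 → F x = x 0 ^ N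
  tau_pos : 0 < τ
  r_pos : 0 < r
  r_le : r ≤ 1 / 4
  tau_le : ∀ x, r ≤ nrm x → nrm x ≤ 1 → τ ≤ SS F N x
  d_nn : 0 ≤ d
  axis : ∀ t : ℝ, 0 ≤ t → ∃ ρ : ℝ, F (Pi.single 1 (t : ℂ)) = ρ ∧ d * t ≤ ρ

/-- the relation between consecutive stages -/
structure Rel (N k : ℕ) (F : Cn (m + 2) → ℂ) (τ r d : ℝ) (F' : Cn (m + 2) → ℂ) (τ' r' d' : ℝ) :
    Prop where
  r_half : r' ≤ r / 2
  d_pos : 0 < d'
  anti : ∀ x, nrm x ≤ 1 → hf F' (2 * N) τ' x ≤ hf F N τ x
  close : ∀ x, r ≤ nrm x → nrm x ≤ 1 → hf F N τ x - (m + 3) / (N : ℝ) ≤ hf F' (2 * N) τ' x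
  small : ∀ x, r' ≤ nrm x → nrm x ≤ 1 → |maDensity (hf F' (2 * N) τ') x| ≤ (1 / 2) ^ (k + 1)
  lel : 0 < d → 2 / (N : ℝ) * Real.log r' ≤ hf F' (2 * N) τ' (Pi.single 1 ((r' : ℝ) : ℂ))
  minf : hf F' (2 * N) τ' 0 ≤ (m : ℝ) + 2 - (k + 1)

theorem continuous_jac {Φ : Cn (m + 2) → Fin (m + 2) → ℂ}
    (h : ∀ j, ContDiff ℂ ∞ (fun x => Φ x j)) : Continuous fun x => (jacM Φ x).det := by
  apply Continuous.matrix_det
  apply continuous_matrix
  intro i j
  exact ((h i).continuous_fderiv (by simp)).clm_apply continuous_const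

theorem maDensity_eq (h6 : Z6Stmt) {F : Cn (m + 2) → ℂ} (hF : ContDiff ℂ ∞ F) (N : ℕ) {τ : ℝ}
    (hτ : 0 < τ) (x : Cn (m + 2)) : maDensity (hf F N τ) x =
      ((m + 2).factorial : ℝ) * (2 / π) ^ (m + 2) * ((1 / (2 * (N : ℝ))) ^ (m + 2) * τ *
        ‖(jacM (Phi F N) x).det‖ ^ 2 / (SS F N x + τ) ^ (m + 2 + 1)) := by
  unfold maDensity hf
  rw [(h6 (m + 2) (Phi F N) (Phi_smooth hF N) τ _ _ hτ x).2, Complex.ofReal_re]
  rfl

theorem continuous_hf (h6 : Z6Stmt) {F : Cn (m + 2) → ℂ} (hF : ContDiff ℂ ∞ F) (N : ℕ) {τ : ℝ}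
    (hτ : 0 < τ) : Continuous (hf F N τ) :=
  (h6 (m + 2) (Phi F N) (Phi_smooth hF N) τ _ _ hτ 0).1.continuous

/-- an orthogonal vector of given norm -/
theorem exists_orth (x : Cn (m + 2)) {r : ℝ} (hr : 0 < r) : ∃ v : Cn (m + 2), ∀ ζ : ℂ, ‖ζ‖ = 1 →
    nrm (x + ζ • v) ^ 2 = nrm x ^ 2 + r ^ 2 := by
  obtain ⟨v, hv1, hv2⟩ : ∃ v : Cn (m + 2), ∑ j, ‖v j‖ ^ 2 = r ^ 2 ∧
      ∑ j, (starRingEnd ℂ) (x j) * v j = 0 := by
    by_cases hx : x 0 = 0 ∧ x 1 = 0
    · refine ⟨Pi.single 0 (r : ℂ), ?_, ?_⟩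
      · rw [Finset.sum_eq_single 0]
        · simp
        · intro j _ hj
          simp [hj]
        · simp
      · rw [Finset.sum_eq_single 0]
        · simp [hx.1]
        · intro j _ hj
          simp [hj]
        · simp
    · set w : ℝ := Real.sqrt (‖x 0‖ ^ 2 + ‖x 1‖ ^ 2) with hw
      have hw2 : w ^ 2 = ‖x 0‖ ^ 2 + ‖x 1‖ ^ 2 := Real.sq_sqrt (by positivity)
      have hwpos : 0 < w := by
        apply Real.sqrt_pos.2
        by_cases h0 : x 0 = 0
        · have h1 : x 1 ≠ 0 := fun h1 => hx ⟨h0, h1⟩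
          have := norm_pos_iff.2 h1
          positivity
        · have := norm_pos_iff.2 h0
          positivity
      refine ⟨fun j => if j = 0 then (r / w : ℝ) * (-(starRingEnd ℂ) (x 1)) else
        if j = 1 then (r / w : ℝ) * (starRingEnd ℂ) (x 0) else 0, ?_, ?_⟩
      · rw [← Finset.add_sum_erase _ _ (Finset.mem_univ (0 : Fin (m + 2))),
          ← Finset.add_sum_erase _ _ (Finset.mem_erase.2 ⟨one_ne_zero', Finset.mem_univ (1 : Fin (m + 2))⟩)]
        rw [Finset.sum_eq_zero]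
        · simp only [if_true, if_neg (one_ne_zero' (m := m)), norm_mul, norm_neg,
            Complex.norm_real, RCLike.norm_conj, add_zero]
          rw [mul_pow, mul_pow, ← mul_add, Real.norm_eq_abs, sq_abs, add_comm (‖x 1‖ ^ 2), ← hw2,
            div_pow]
          field_simp
        · intro j hj
          rw [Finset.mem_erase, Finset.mem_erase] at hj
          simp [hj.2.1, hj.1]
      · rw [← Finset.add_sum_erase _ _ (Finset.mem_univ (0 : Fin (m + 2))),
          ← Finset.add_sum_erase _ _ (Finset.mem_erase.2 ⟨one_ne_zero', Finset.mem_univ (1 : Fin (m + 2))⟩)]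
        rw [Finset.sum_eq_zero]
        · simp only [if_true, if_neg (one_ne_zero' (m := m))]
          ring
        · intro j hj
          rw [Finset.mem_erase, Finset.mem_erase] at hj
          simp [hj.2.1, hj.1]
  refine ⟨v, fun ζ hζ => ?_⟩
  rw [nrm_sq, nrm_sq, ← hv1]
  have e : ∀ j, ‖(x + ζ • v) j‖ ^ 2 = ‖x j‖ ^ 2 + ‖v j‖ ^ 2 +
      2 * (ζ * ((starRingEnd ℂ) (x j) * v j)).re := by
    intro j
    rw [Pi.add_apply, Pi.smul_apply, smul_eq_mul, Complex.sq_norm, Complex.sq_norm,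
      Complex.sq_norm, Complex.normSq_add]
    have h1 : Complex.normSq (ζ * v j) = Complex.normSq (v j) := by
      rw [map_mul, Complex.normSq_eq_norm_sq ζ, hζ]
      ring
    rw [h1]
    have h2 : (x j * (starRingEnd ℂ) (ζ * v j)).re = (ζ * ((starRingEnd ℂ) (x j) * v j)).re := by
      rw [← Complex.conj_re]
      simp only [map_mul, Complex.conj_conj]
      ring_nf
    rw [h2]
  rw [Finset.sum_congr rfl fun j _ => e j, Finset.sum_add_distrib, Finset.sum_add_distrib,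
    ← Finset.mul_sum, ← Complex.re_sum, ← Finset.mul_sum, hv2]
  simp

/-- the choice of `r'` -/
theorem choose_r {N : ℕ} (hN : 1 ≤ N) {F : Cn (m + 2) → ℂ} {τ r d : ℝ} (h : Inv N F τ r d) :
    ∃ r' : ℝ, 0 < r' ∧ r' ≤ r / 2 ∧ (0 < d → r' ≤ d) ∧
      ∀ x : Cn (m + 2), nrm x ^ 2 ≤ 2 * r' ^ 2 → SS F N x ≤ τ := by
  have hc := (continuous_SS h.smooth N).tendsto (0 : Cn (m + 2))
  rw [SS_zero hN h.plane] at hc
  have h1 : ∀ᶠ x in 𝓝 (0 : Cn (m + 2)), SS F N x < τ := hc.eventually (gt_mem_nhds h.tau_pos)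
  obtain ⟨δ, hδ, h2⟩ := Metric.eventually_nhds_iff.1 h1
  have hr := h.r_pos
  have hd := h.d_nn
  have key : ∃ r' : ℝ, 0 < r' ∧ r' ≤ r / 2 ∧ (0 < d → r' ≤ d) ∧ r' ≤ δ / 4 := by
    by_cases h3 : 0 < d
    · exact ⟨min (r / 2) (min d (δ / 4)), by positivity, min_le_left _ _,
        fun _ => (min_le_right _ _).trans (min_le_left _ _),
        (min_le_right _ _).trans (min_le_right _ _)⟩
    · exact ⟨min (r / 2) (δ / 4), by positivity, min_le_left _ _, fun h4 => absurd h4 h3,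
        min_le_right _ _⟩
  obtain ⟨r', h3, h4, h5, h6⟩ := key
  refine ⟨r', h3, h4, h5, fun x hx => (h2 ?_).le⟩
  rw [dist_zero_right]
  have h7 : nrm x < δ := by
    by_contra h8
    push Not at h8
    nlinarith [nrm_nonneg x]
  exact (norm_le_nrm x).trans_lt h7

theorem step (h5 : Z5Stmt) (h6 : Z6Stmt) {N : ℕ} (hN : 1 ≤ N) (k : ℕ) {F : Cn (m + 2) → ℂ}
    {τ r d : ℝ} (h : Inv N F τ r d) : ∃ (F' : Cn (m + 2) → ℂ) (τ' r' d' : ℝ),
      Inv (2 * N) F' τ' r' d' ∧ Rel N k F τ r d F' τ' r' d' := by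
  obtain ⟨r', hr0, hr2, hrd, hrS⟩ := choose_r hN h
  set n : ℝ := (m : ℝ) + 2 with hn
  have hn2 : 2 ≤ n := by
    have : (0 : ℝ) ≤ m := Nat.cast_nonneg m
    linarith
  have hNr : (1 : ℝ) ≤ N := by exact_mod_cast hN
  have hN0 : (0 : ℝ) < N := by linarith
  have hrle := h.r_le
  have hrp := h.r_pos
  -- the infimum of `S`
  have hK := isCompact_shell (n := m + 2) r' 1
  obtain ⟨s, hs0, hs⟩ := hK.exists_forall_le' (f := SS F N) (a := 0)
    (continuous_SS h.smooth N).continuousOn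
    (fun x hx => SS_pos hN h.plane (lt_of_lt_of_le hr0 hx.1))
  obtain ⟨B, hB⟩ := hK.exists_bound_of_continuousOn (f := F) h.smooth.continuous.continuousOn
  -- the choice of `d'`
  have hc0 : 0 < s ^ 2 / (2 * n) := by positivity
  obtain ⟨d', hd0, hd1, hdB⟩ : ∃ d' : ℝ, 0 < d' ∧ d' ≤ 1 ∧
      d' * (2 * B ^ 2 + 1) ≤ s ^ 2 / (2 * n) := by
    refine ⟨min 1 (s ^ 2 / (2 * n) / (2 * B ^ 2 + 1)), by positivity, min_le_left _ _, ?_⟩
    have : 0 < 2 * B ^ 2 + 1 := by positivity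
    rw [← le_div_iff₀ this]
    exact min_le_right _ _
  set F' : Cn (m + 2) → ℂ := fun y => F y ^ 2 + d' * y 1 with hF'
  have hF's : ContDiff ℂ ∞ F' :=
    (h.smooth.pow 2).add (contDiff_const.mul (contDiff_apply ℂ ℂ (1 : Fin (m + 2))))
  have hcmp : ∀ x, r' ≤ nrm x → nrm x ≤ 1 → SS F N x ^ 2 / (2 * n) ≤ SS F' (2 * N) x ∧
      SS F' (2 * N) x ≤ SS F N x ^ 2 + SS F N x ^ 2 / (2 * n) := fun x h1 h2 =>
    SS_step hs0 hd0 hd1 hdB h2 (hs x ⟨h1, h2⟩) (hB x ⟨h1, h2⟩)
  -- the bound of the Jacobian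
  obtain ⟨J, hJ⟩ := hK.exists_bound_of_continuousOn
    (f := fun x => (jacM (Phi F' (2 * N)) x).det)
    (continuous_jac (Phi_smooth hF's (2 * N))).continuousOn
  set c0 : ℝ := s ^ 2 / (2 * n) with hc0def
  set D : ℝ := ((m + 2).factorial : ℝ) * (2 / π) ^ (m + 2) *
    ((1 / (2 * ((2 * N : ℕ) : ℝ))) ^ (m + 2) * J ^ 2 / c0 ^ (m + 2 + 1)) with hD
  have hD0 : 0 ≤ D := by positivity
  obtain ⟨τ', ht0, ht1, ht2, ht3⟩ : ∃ τ' : ℝ, 0 < τ' ∧ τ' ≤ c0 ∧
      τ' ≤ Real.exp (-(4 * (N : ℝ) * (k + 1))) ∧ τ' * D ≤ (1 / 2) ^ (k + 1) := by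
    refine ⟨min c0 (min (Real.exp (-(4 * (N : ℝ) * (k + 1)))) ((1 / 2) ^ (k + 1) / (D + 1))),
      by positivity, min_le_left _ _, (min_le_right _ _).trans (min_le_left _ _), ?_⟩
    have h1 : min c0 (min (Real.exp (-(4 * (N : ℝ) * (k + 1)))) ((1 / 2) ^ (k + 1) / (D + 1))) ≤
        (1 / 2) ^ (k + 1) / (D + 1) := (min_le_right _ _).trans (min_le_right _ _)
    have h2 : (0 : ℝ) < D + 1 := by positivity
    rw [le_div_iff₀ h2] at h1
    have h3 : 0 ≤ min c0 (min (Real.exp (-(4 * (N : ℝ) * (k + 1))))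
      ((1 / 2) ^ (k + 1) / (D + 1))) := by positivity
    nlinarith
  -- consequences
  have hsS : ∀ x, r' ≤ nrm x → nrm x ≤ 1 → c0 ≤ SS F N x ^ 2 / (2 * n) := by
    intro x h1 h2
    have h3 := hs x ⟨h1, h2⟩
    rw [hc0def]
    gcongr
  have hSpos : ∀ x, r' ≤ nrm x → nrm x ≤ 1 → 0 < SS F N x := fun x h1 h2 =>
    hs0.trans_le (hs x ⟨h1, h2⟩)
  have hcast : ((2 * N : ℕ) : ℝ) = 2 * (N : ℝ) := by push_cast; ring
  have hlog2 : Real.log 2 ≤ 1 := by
    have := Real.log_two_lt_d9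
    linarith
  have hlog20 : 0 ≤ Real.log 2 := Real.log_nonneg (by norm_num)
  -- lower bound of `h'` on the shell
  have hlow : ∀ x, r' ≤ nrm x → nrm x ≤ 1 →
      1 / (2 * (N : ℝ)) * Real.log (SS F N x) ≤ hf F' (2 * N) τ' x := by
    intro x h1 h2
    rw [hf_eq, hcast]
    have h3 := hSpos x h1 h2
    have h4 : Real.log (SS F N x ^ 2 / (2 * n)) ≤ Real.log (SS F' (2 * N) x + τ') := by
      apply Real.log_le_log (by positivity)
      linarith [(hcmp x h1 h2).1]
    rw [Real.log_div (by positivity) (by positivity), Real.log_pow] at h4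
    have h5 : Real.log (2 * n) ≤ 2 * n := (Real.log_le_sub_one_of_pos (by positivity)).trans
      (by linarith)
    have h6 : 1 / (2 * (2 * (N : ℝ))) * (2 * Real.log (SS F N x) - 2 * n) ≤
        1 / (2 * (2 * (N : ℝ))) * Real.log (SS F' (2 * N) x + τ') := by
      gcongr
      push_cast at h4
      linarith
    have h7 : 1 / (2 * (2 * (N : ℝ))) * (2 * Real.log (SS F N x) - 2 * n) =
        1 / (2 * (N : ℝ)) * Real.log (SS F N x) - n / (2 * (N : ℝ)) := by
      field_simp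
    rw [h7] at h6
    linarith
  -- upper bound of `h'` on the shell
  have hup : ∀ x, r' ≤ nrm x → nrm x ≤ 1 →
      hf F' (2 * N) τ' x ≤ 1 / (2 * (N : ℝ)) * Real.log (SS F N x) + n / (N : ℝ) := by
    intro x h1 h2
    rw [hf_eq, hcast]
    have h3 := hSpos x h1 h2
    have h4 : Real.log (SS F' (2 * N) x + τ') ≤ Real.log (2 * SS F N x ^ 2) := by
      apply Real.log_le_log
      · have := SS_nonneg F' (2 * N) x
        positivity
      · have h5 := (hcmp x h1 h2).2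
        have h6 := hsS x h1 h2
        have h7 : SS F N x ^ 2 / (2 * n) ≤ SS F N x ^ 2 / 4 := by
          gcongr
          linarith
        nlinarith [sq_nonneg (SS F N x)]
    rw [Real.log_mul (by norm_num) (by positivity), Real.log_pow] at h4
    have h6 : 1 / (2 * (2 * (N : ℝ))) * Real.log (SS F' (2 * N) x + τ') ≤
        1 / (2 * (2 * (N : ℝ))) * (1 + 2 * Real.log (SS F N x)) := by
      gcongr
      push_cast at h4
      linarith
    have h7 : 1 / (2 * (2 * (N : ℝ))) * (1 + 2 * Real.log (SS F N x)) =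
        1 / (2 * (N : ℝ)) * Real.log (SS F N x) + 1 / (4 * (N : ℝ)) := by
      field_simp
      ring
    have h8 : 1 / (4 * (N : ℝ)) + n / (2 * (N : ℝ)) ≤ n / (N : ℝ) := by
      have : n / (N : ℝ) - n / (2 * (N : ℝ)) - 1 / (4 * (N : ℝ)) = (2 * n - 1) / (4 * (N : ℝ)) := by
        field_simp
        ring
      have h9 : 0 ≤ (2 * n - 1) / (4 * (N : ℝ)) := by
        apply div_nonneg <;> linarith
      linarith
    linarith
  -- lower bound of `h`
  have hlowh : ∀ x y : ℝ, 0 < x → x ≤ y → 1 / (2 * (N : ℝ)) * Real.log x + n / (N : ℝ) ≤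
      1 / (2 * (N : ℝ)) * Real.log y + n / (N : ℝ) := by
    intro x y h1 h2
    have := Real.log_le_log h1 h2
    gcongr
  refine ⟨F', τ', r', d', ⟨hF's, ?_, ht0, hr0, by linarith, ?_, hd0.le, ?_⟩,
    ⟨hr2, hd0, ?_, ?_, ?_, ?_, ?_⟩⟩
  · intro x hx
    simp only [hF', h.plane x hx, hx, mul_zero, add_zero]
    rw [← pow_mul, mul_comm]
  · intro x h1 h2
    have h3 := (hcmp x h1 h2).1
    have h4 := hsS x h1 h2
    linarith
  · intro t ht
    obtain ⟨ρ, h1, h2⟩ := h.axis t ht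
    refine ⟨ρ ^ 2 + d' * t, ?_, ?_⟩
    · simp only [hF', h1, Pi.single_eq_same]
      push_cast
      ring
    · nlinarith [sq_nonneg ρ]
  · -- anti
    intro x hx
    by_cases h1 : r' ≤ nrm x
    · refine (hup x h1 hx).trans ?_
      rw [hf_eq]
      exact hlowh _ _ (hSpos x h1 hx) (by linarith [h.tau_pos])
    · push Not at h1
      obtain ⟨v, hv⟩ := exists_orth x hr0
      have hcirc : ∀ θ : ℝ, hf F' (2 * N) τ' (x + Complex.exp (θ * Complex.I) • v) ≤
          hf F N τ x := by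
        intro θ
        have h2 := hv (Complex.exp (θ * Complex.I)) (Complex.norm_exp_ofReal_mul_I θ)
        set y := x + Complex.exp (θ * Complex.I) • v with hy
        have hx0 := nrm_nonneg x
        have hy0 := nrm_nonneg y
        have h3 : r' ≤ nrm y := by
          by_contra h4
          push Not at h4
          nlinarith
        have h5 : nrm y ^ 2 ≤ 2 * r' ^ 2 := by nlinarith
        have h6 : nrm y ≤ 1 := by
          by_contra h7
          push Not at h7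
          nlinarith
        refine (hup y h3 h6).trans ?_
        rw [hf_eq]
        exact hlowh _ _ (hSpos y h3 h6) ((hrS y h5).trans (by linarith [SS_nonneg F N x]))
      have h2 := h5.1 (m + 2) (Phi F' (2 * N)) (Phi_smooth hF's _) τ' (1 / (2 * ((2 * N : ℕ) : ℝ)))
        ((m + 2) / ((2 * N : ℕ) : ℝ)) ht0 (by positivity) x v
      refine h2.trans ?_
      change (2 * π)⁻¹ * ∫ θ in (0 : ℝ)..(2 * π), hf F' (2 * N) τ'
        (x + Complex.exp (θ * Complex.I) • v) ≤ _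
      have hcont : Continuous fun θ : ℝ => hf F' (2 * N) τ'
          (x + Complex.exp (θ * Complex.I) • v) := by
        have := continuous_hf h6 hF's (2 * N) ht0
        fun_prop
      have h3 : ∫ θ in (0 : ℝ)..(2 * π), hf F' (2 * N) τ' (x + Complex.exp (θ * Complex.I) • v) ≤
          ∫ θ in (0 : ℝ)..(2 * π), hf F N τ x := by
        apply intervalIntegral.integral_mono_on (by positivity)
        · exact hcont.intervalIntegrable _ _
        · exact intervalIntegrable_const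
        · exact fun θ _ => hcirc θ
      rw [intervalIntegral.integral_const, smul_eq_mul, sub_zero] at h3
      have h4 : (0 : ℝ) < 2 * π := by positivity
      calc (2 * π)⁻¹ * ∫ θ in (0 : ℝ)..(2 * π), hf F' (2 * N) τ'
            (x + Complex.exp (θ * Complex.I) • v) ≤ (2 * π)⁻¹ * (2 * π * hf F N τ x) := by
              gcongr
        _ = hf F N τ x := by field_simp
  · -- close
    intro x h1 h2
    have h3 : r' ≤ nrm x := by linarith
    refine le_trans ?_ (hlow x h3 h2)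
    rw [hf_eq]
    have h4 := hSpos x h3 h2
    have h5 := h.tau_le x h1 h2
    have h7 : Real.log (SS F N x + τ) ≤ Real.log (2 * SS F N x) :=
      Real.log_le_log (by linarith [h.tau_pos]) (by linarith)
    rw [Real.log_mul (by norm_num) (by positivity)] at h7
    have h8 : 1 / (2 * (N : ℝ)) * Real.log (SS F N x + τ) ≤
        1 / (2 * (N : ℝ)) * (1 + Real.log (SS F N x)) := by
      gcongr
      linarith
    have h9 : 1 / (2 * (N : ℝ)) * (1 + Real.log (SS F N x)) =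
        1 / (2 * (N : ℝ)) * Real.log (SS F N x) + 1 / (2 * (N : ℝ)) := by ring
    have h10 : 1 / (2 * (N : ℝ)) + ((m : ℝ) + 2) / (N : ℝ) - ((m : ℝ) + 3) / (N : ℝ) ≤ 0 := by
      have : 1 / (2 * (N : ℝ)) + ((m : ℝ) + 2) / (N : ℝ) - ((m : ℝ) + 3) / (N : ℝ) =
          -(1 / (2 * (N : ℝ))) := by
        field_simp
        ring
      rw [this]
      have : 0 ≤ 1 / (2 * (N : ℝ)) := by positivity
      linarith
    linarith
  · -- small
    intro x h1 h2
    rw [maDensity_eq h6 hF's (2 * N) ht0]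
    have hS0 := SS_nonneg F' (2 * N) x
    rw [abs_of_nonneg (by positivity)]
    have h3 : c0 ≤ SS F' (2 * N) x + τ' := by
      have := (hcmp x h1 h2).1
      have := hsS x h1 h2
      linarith
    have h4 := hJ x ⟨h1, h2⟩
    calc ((m + 2).factorial : ℝ) * (2 / π) ^ (m + 2) * ((1 / (2 * ((2 * N : ℕ) : ℝ))) ^ (m + 2) *
          τ' * ‖(jacM (Phi F' (2 * N)) x).det‖ ^ 2 / (SS F' (2 * N) x + τ') ^ (m + 2 + 1))
        ≤ ((m + 2).factorial : ℝ) * (2 / π) ^ (m + 2) * ((1 / (2 * ((2 * N : ℕ) : ℝ))) ^ (m + 2) *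
          τ' * J ^ 2 / c0 ^ (m + 2 + 1)) := by
          gcongr
      _ = τ' * D := by rw [hD]; ring
      _ ≤ _ := ht3
  · -- lel
    intro hdpos
    obtain ⟨ρ, h1, h2⟩ := h.axis r' hr0.le
    have hnrm : nrm (Pi.single 1 ((r' : ℝ) : ℂ) : Cn (m + 2)) = r' := by
      unfold nrm
      rw [Finset.sum_eq_single 1]
      · simp [Real.sqrt_sq hr0.le]
      · intro j _ hj
        simp [hj]
      · simp
    refine le_trans ?_ (hlow _ hnrm.ge (by rw [hnrm]; linarith))
    have h3 : r' ^ 4 ≤ SS F N (Pi.single 1 ((r' : ℝ) : ℂ)) := by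
      have h4 : ‖Phi F N (Pi.single 1 ((r' : ℝ) : ℂ)) 0‖ ^ 2 ≤
          SS F N (Pi.single 1 ((r' : ℝ) : ℂ)) :=
        Finset.single_le_sum (f := fun j => ‖Phi F N (Pi.single 1 ((r' : ℝ) : ℂ)) j‖ ^ 2)
          (fun _ _ => by positivity) (Finset.mem_univ 0)
      rw [Phi_zero, h1, Complex.norm_real, Real.norm_eq_abs, sq_abs] at h4
      have h5 : r' ^ 2 ≤ ρ := by
        have := hrd hdpos
        nlinarith
      nlinarith [sq_nonneg r']
    have h4 := Real.log_le_log (by positivity) h3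
    rw [Real.log_pow] at h4
    have h5 : 1 / (2 * (N : ℝ)) * (4 * Real.log r') ≤
        1 / (2 * (N : ℝ)) * Real.log (SS F N (Pi.single 1 ((r' : ℝ) : ℂ))) := by
      gcongr
      exact_mod_cast h4
    refine le_trans (le_of_eq ?_) h5
    field_simp
    ring
  · -- minf
    rw [hf_eq, SS_zero (by omega), zero_add, hcast]
    · have h1 := Real.log_le_log ht0 ht2
      rw [Real.log_exp] at h1
      have h2 : 1 / (2 * (2 * (N : ℝ))) * Real.log τ' ≤
          1 / (2 * (2 * (N : ℝ))) * (-(4 * (N : ℝ) * (k + 1))) := by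
        gcongr
      have h3 : 1 / (2 * (2 * (N : ℝ))) * (-(4 * (N : ℝ) * (k + 1))) = -((k : ℝ) + 1) := by
        field_simp
        ring
      have h4 : ((m : ℝ) + 2) / (2 * (N : ℝ)) ≤ (m : ℝ) + 2 := by
        apply div_le_self (by positivity)
        linarith
      linarith
    · intro x hx
      simp only [hF', h.plane x hx, hx, mul_zero, add_zero]
      rw [← pow_mul, mul_comm]

end Pool.Agent.Helper91.ZM
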